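import Pool.Agent.RCM.Stmts

/-!
# Row MUL of squad RCM: many unused colours
-/

set_option autoImplicit false

namespace Pool.Agent.RCM.H13

open Set Pool.Agent.RCM

universe u

theorem mul (hAdd : AddStmt.{u}) : MulStmt.{u} := by
  intro E K _ _ M N κ s t P X T z F hC hF hM hS hU hs
  have key : ∀ m : ℕ, ∀ X : Set K, St M N κ P X t T → (Un κ X T).ncard = m + 1 →
      F z + m * z ≤ (T \ Sta M N κ P X T).ncard := by
    intro m
    induction m with
    | zero =>
      intro X hS hm
      have hne : (Un κ X T).Nonempty := by
        rw [Set.nonempty_iff_ne_empty]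
        intro h
        rw [h, Set.ncard_empty] at hm
        omega
      have := hF t P X T z hM hS hne hs
      omega
    | succ m ih =>
      intro X hS hm
      have hne : (Un κ X T).Nonempty := by
        rw [Set.nonempty_iff_ne_empty]
        intro h
        rw [h, Set.ncard_empty] at hm
        omega
      obtain ⟨a, ha⟩ := hne
      have ha' : a ∉ X ∧ a ∉ κ '' T := ha
      have hS' : St M N κ P (insert a X) t T := by
        refine ⟨hS.ri, hS.card, hS.fr, hS.dj, fun e he h => ?_⟩
        rcases Set.mem_insert_iff.1 h with h | h
        · exact ha'.2 ⟨e, he, h⟩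
        · exact hS.col e he h
      have hUn : Un κ (insert a X) T = Un κ X T \ {a} := by
        ext c
        constructor
        · rintro ⟨h1, h2⟩
          refine ⟨⟨fun h => h1 (Set.mem_insert_of_mem _ h), h2⟩, fun h => h1 ?_⟩
          rw [Set.mem_singleton_iff.1 h]
          exact Set.mem_insert _ _
        · rintro ⟨⟨h1, h2⟩, h3⟩
          refine ⟨fun h => ?_, h2⟩
          rcases Set.mem_insert_iff.1 h with h | h
          · exact h3 (Set.mem_singleton_iff.2 h)
          · exact h1 h
      have hcard : (Un κ (insert a X) T).ncard = m + 1 := by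
        rw [hUn, Set.ncard_diff_singleton_of_mem ha, hm]
        omega
      have h1 := ih (insert a X) hS' hcard
      have h2 := hAdd E K M N κ s t P X T a z hC hM hS ha'.1 ha'.2 hs
      have h3 : (m + 1) * z = m * z + z := by ring
      omega
  obtain ⟨m, hm⟩ : ∃ m, (Un κ X T).ncard = m + 1 := by
    have h1 : (Un κ X T).ncard ≠ 0 := by
      have := (Set.ncard_pos (s := Un κ X T)).2 hU
      omega
    exact ⟨(Un κ X T).ncard - 1, by omega⟩
  have := key m X hS hm
  rw [hm]
  exact this

end Pool.Agent.RCM.H13
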